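import Pool.Agent.W285.UB.Stm

set_option autoImplicit false

namespace Pool.Agent.W359.UB

open Pool.Agent.W285.UB NumberField Height Module Pool.Agent.Helper259.AbsHt
open Polynomial

/-- the integral polynomial with given coefficients -/
noncomputable def mkP (E : ℕ) (c : Fin (E + 1) → ℤ) : Polynomial ℤ :=
  ∑ i : Fin (E + 1), monomial (i : ℕ) (c i)

lemma mkP_coeff (P : Polynomial ℤ) (E : ℕ) (h : P.natDegree ≤ E) :
    mkP E (fun i => P.coeff i) = P := by
  unfold mkP
  conv_rhs => rw [P.as_sum_range' (E + 1) (by omega)]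
  rw [Finset.sum_range]

lemma mkP_natDegree (E : ℕ) (c : Fin (E + 1) → ℤ) : (mkP E c).natDegree ≤ E := by
  unfold mkP
  refine natDegree_sum_le_of_forall_le _ _ (fun i _ => ?_)
  refine (natDegree_monomial_le _).trans ?_
  omega

/-- the points given by the roots of the polynomial -/
noncomputable def rts (E : ℕ) (c : Fin (E + 1) → ℤ) : Finset (Fin 2 → Qbar) := by
  classical
  exact (((mkP E c).map (algebraMap ℤ Qbar)).roots.toFinset).image (fun α => ![α, 1])

lemma rts_card (E : ℕ) (c : Fin (E + 1) → ℤ) : (rts E c).card ≤ E := by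
  classical
  unfold rts
  refine Finset.card_image_le.trans ?_
  refine (Multiset.toFinset_card_le _).trans ?_
  refine (card_roots' _).trans ?_
  exact (natDegree_map_le).trans (mkP_natDegree E c)

theorem count : S_MINP → S_COUNT := by
  classical
  intro hM E
  obtain ⟨C, hC, h⟩ := hM E
  refine ⟨1 + E * (3 * C) ^ (E + 1), ?_, ?_⟩
  · have : 0 ≤ (E : ℝ) * (3 * C) ^ (E + 1) := by positivity
    linarith
  intro X hX
  set M : ℕ := ⌊C * X ^ E⌋₊ with hMdef
  have hCX : 1 ≤ C * X ^ E := by
    have := one_le_pow₀ hX (n := E)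
    nlinarith
  set T : Finset (Fin (E + 1) → ℤ) := Fintype.piFinset (fun _ => Finset.Icc (-(M : ℤ)) M) with hT
  set S : Finset (Fin 2 → Qbar) := insert ![1, 0] (T.biUnion (rts E)) with hS
  have hsub : pts E X ⊆ (S : Set (Fin 2 → Qbar)) := by
    intro v hv
    obtain ⟨hv1, hv2⟩ := hv
    rcases hv1 with hv1 | ⟨α, hα, hv1⟩
    · rw [hS, hv1]; simp
    · obtain ⟨P, hP0, hPd, hPa, hPc⟩ := h α hα
      rw [hS]
      simp only [Finset.coe_insert, Set.mem_insert_iff, Finset.mem_coe, Finset.mem_biUnion]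
      right
      refine ⟨fun i => P.coeff i, ?_, ?_⟩
      · rw [hT, Fintype.mem_piFinset]
        intro i
        rw [Finset.mem_Icc, ← abs_le]
        have h1 := hPc i
        have h2 : ht ![α, 1] ^ E ≤ X ^ E := by
          refine pow_le_pow_left₀ (Real.exp_pos _).le ?_ E
          rw [← hv1]; exact hv2
        have h3 : (|P.coeff i| : ℝ) ≤ C * X ^ E := h1.trans (by nlinarith)
        have h4 : (((P.coeff i).natAbs : ℕ) : ℝ) ≤ C * X ^ E := by
          rw [Nat.cast_natAbs]; push_cast; exact h3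
        have h6 : (P.coeff i).natAbs ≤ M := Nat.le_floor h4
        show |P.coeff (i : ℕ)| ≤ (M : ℤ)
        rw [Int.abs_eq_natAbs]
        exact_mod_cast h6
      · unfold rts
        rw [Finset.mem_image]
        refine ⟨α, ?_, hv1.symm⟩
        rw [mkP_coeff P E hPd, Multiset.mem_toFinset, mem_roots']
        refine ⟨?_, ?_⟩
        · rw [Polynomial.map_ne_zero_iff]
          · exact hP0
          · exact (algebraMap ℤ Qbar).injective_int
        · rw [IsRoot.def, eval_map_algebraMap]
          exact hPa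
  have hfin : (pts E X).Finite := S.finite_toSet.subset hsub
  refine ⟨hfin, ?_⟩
  have h1 : (pts E X).ncard ≤ S.card := by
    have := Set.ncard_le_ncard hsub S.finite_toSet
    rwa [Set.ncard_coe_finset] at this
  have h2 : S.card ≤ (2 * M + 1) ^ (E + 1) * E + 1 := by
    rw [hS]
    refine (Finset.card_insert_le _ _).trans ?_
    have h3 : (T.biUnion (rts E)).card ≤ T.card * E :=
      Finset.card_biUnion_le_card_mul _ _ _ (fun c _ => rts_card E c)
    have h4 : T.card = (2 * M + 1) ^ (E + 1) := by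
      rw [hT, Fintype.card_piFinset_const]
      have : (Finset.Icc (-(M : ℤ)) M).card = 2 * M + 1 := by
        rw [Int.card_Icc]; omega
      rw [this]
    rw [h4] at h3
    omega
  have h5 : ((pts E X).ncard : ℝ) ≤ ((2 * M + 1) ^ (E + 1) * E + 1 : ℝ) := by
    have := h1.trans h2
    exact_mod_cast this
  have h6 : (2 * M + 1 : ℝ) ≤ 3 * (C * X ^ E) := by
    have : (M : ℝ) ≤ C * X ^ E := Nat.floor_le (by positivity)
    linarith
  have h7 : ((2 * M + 1 : ℝ)) ^ (E + 1) ≤ (3 * C) ^ (E + 1) * X ^ (E * (E + 1)) := by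
    refine (pow_le_pow_left₀ (by positivity) h6 _).trans (le_of_eq ?_)
    rw [← mul_assoc, mul_pow, ← pow_mul]
  have h8 : 1 ≤ X ^ (E * (E + 1)) := one_le_pow₀ hX
  calc ((pts E X).ncard : ℝ) ≤ ((2 * M + 1) ^ (E + 1) * E + 1 : ℝ) := h5
    _ ≤ ((3 * C) ^ (E + 1) * X ^ (E * (E + 1))) * E + X ^ (E * (E + 1)) := by
        gcongr
    _ = (1 + E * (3 * C) ^ (E + 1)) * X ^ (E * (E + 1)) := by ring

end Pool.Agent.W359.UB
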